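import Mathlib

namespace Pool.Agent.Results.MP_bbe6b0_lc.Q1

open FirstOrder Language Finset

/-- The order of `P` comes from an action of a semilattice with identity on `P`. -/
def IsDown (P : Type) [PartialOrder P] : Prop :=
  ∃ (S : Type) (_ : CommMonoid S) (act : P → S → P), (∀ s : S, s * s = s) ∧
    (∀ c s t, act c (s * t) = act (act c s) t) ∧ (∀ c, act c 1 = c) ∧ ∀ c d, c ≤ d ↔ ∃ s, act d s = c

def Dn {P : Type} [PartialOrder P] (f : P → P) : Prop :=
  (∀ c, f c ≤ c) ∧ Monotone f ∧ ∀ c d, c ≤ f d → f c = c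

lemma down_iff (P : Type) [PartialOrder P] : IsDown P ↔ ∀ c d : P, c ≤ d → ∃ f, Dn f ∧ f d = c := by
  refine ⟨fun ⟨S, _, a, i, m, _, h⟩ c d k => ?_, fun h => ?_⟩
  · obtain ⟨s, rfl⟩ := (h c d).1 k
    refine ⟨(a · s), ⟨fun c => (h _ _).2 ⟨s, rfl⟩, fun x y k => ?_, fun x y k => ?_⟩, rfl⟩
    all_goals obtain ⟨t, rfl⟩ := (h _ _).1 k
    · exact (h _ _).2 ⟨t, by simp only [← m, mul_comm]⟩
    · simp only [← m]; rw [mul_right_comm, i]
  · have c {f g : P → P} (a : Dn f) (b : Dn g) (x) : f (g x) ≤ g (f x) :=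
      (b.2.2 _ _ (a.1 _)).ge.trans (b.2.1 (a.2.1 (b.1 x)))
    let S : Submonoid (Function.End P) := ⟨⟨{f | Dn f}, fun {f g} a b => ⟨fun x => (a.1 _).trans (b.1 x),
      a.2.1.comp b.2.1, fun x y k => (congrArg f (b.2.2 x y (k.trans (a.1 _)))).trans (a.2.2 x _ k)⟩⟩,
      fun _ => le_rfl, monotone_id, fun _ _ _ => rfl⟩
    exact ⟨S, { mul_comm := fun f g => Subtype.ext (funext fun x => (c f.2 g.2 x).antisymm (c g.2 f.2 x)) },
      fun x f => f.1 x, fun f => Subtype.ext (funext fun x => f.2.2.2 _ x le_rfl),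
      fun x f g => (c f.2 g.2 x).antisymm (c g.2 f.2 x), fun _ => rfl,
      fun x y => ⟨fun k => (h x y k).elim fun f a => ⟨⟨f, a.1⟩, a.2⟩, fun ⟨f, e⟩ => e ▸ f.2.1 y⟩⟩

variable {X Y : Type} [AddCommGroup X] [AddCommGroup Y]

inductive El (g t : X) | o | a | c | d | v (x : X) | e (x : X)

open El

instance (g t : X) [Finite X] : Finite (El g t) :=
  .of_surjective (fun p : Fin 6 × X => ![o, a, c, d, v p.2, e p.2] p.1) fun x => by
    cases x
    exacts [⟨(0, 0), rfl⟩, ⟨(1, 0), rfl⟩, ⟨(2, 0), rfl⟩, ⟨(3, 0), rfl⟩, ⟨(4, _), rfl⟩, ⟨(5, _), rfl⟩]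

def le {g t : X} : El g t → El g t → Prop
  | o, _ | a, a | a, c | a, d | a, e _ | c, c | c, d | d, d => True
  | v x, v y | e x, e y => x = y
  | v x, e y => x = y ∨ x = y + g
  | v x, c => x = 0
  | v x, d => x = 0 ∨ x = t
  | _, _ => False

instance (g t : X) : PartialOrder (El g t) where
  le := le
  le_refl x := by cases x <;> trivial
  le_trans x y z := by cases x <;> cases y <;> cases z <;> simp only [le] <;> grind
  le_antisymm x y := by cases x <;> cases y <;> simp +contextual [le]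

lemma ld {g t : X} (x y : El g t) : x ≤ y ↔ le x y := .rfl

lemma bad (g : X) (k : ℕ) (h : k • g ≠ 0) : ¬ IsDown (El g (k • g)) := fun H => by
  obtain ⟨f, ⟨p, q, r⟩, s⟩ := (down_iff _).1 H c d trivial
  have A := r a d (s ▸ trivial)
  have V (j : ℕ) : f (v (j • g)) = v (j • g) := by
    induction j with
    | zero => exact r _ d (s ▸ zero_nsmul g)
    | succ j ih =>
      have b1 := A ▸ q (show a ≤ e (j • g) from trivial)
      have b2 := ih ▸ q (show v (j • g) ≤ e (j • g) from .inl rfl)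
      have b3 := p (e (j • g))
      refine r _ (e (j • g)) ?_
      generalize f (e (j • g)) = z at *
      cases z <;> simp_all [ld, le, succ_nsmul]
  exact h (V k ▸ s ▸ q (show v (k • g) ≤ d from .inr rfl) :)

lemma good (g : X) : IsDown (El (g, (0 : ZMod 2)) (0, 1)) := by
  classical
  refine (down_iff _).2 fun x y h => ?_
  by_cases e1 : x = y
  · exact ⟨id, ⟨fun _ => le_rfl, monotone_id, fun _ _ _ => rfl⟩, e1.symm⟩
  by_cases e2 : ∀ z ≤ x, z = x ∨ z = o
  · have (z : El (g, (0 : ZMod 2)) (0, 1)) : o ≤ z := trivial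
    refine ⟨fun z => if x ≤ z then x else o, ⟨fun z => ?_, fun z w k => ?_, fun z w k => ?_⟩, if_pos h⟩
    · beta_reduce; split_ifs; exacts [‹_›, trivial]
    · beta_reduce; split_ifs with i j; exacts [le_rfl, (j (i.trans k)).elim, trivial, trivial]
    · beta_reduce at *
      have := e2 z
      have := le_antisymm (a := z) (b := o)
      have := le_antisymm (a := x) (b := o)
      grind
  obtain ⟨rfl, rfl⟩ : x = c ∧ y = d := by
    cases x <;> cases y <;> simp_all [ld, le] <;> exact e2.elim fun z => by cases z <;> simp [le]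
  refine ⟨fun | d => c | v x => if x.2 = 0 then v x else o | e x => if x.2 = 0 then e x else a | z => z,
    ⟨fun z => ?_, fun z w k => ?_, fun z w k => ?_⟩, rfl⟩
  · cases z <;> simp only <;> first | trivial | split_ifs <;> trivial
  · cases z <;> cases w <;> simp only [ld, le] at k ⊢ <;> (try split_ifs) <;> simp only [le] <;>
      aesop
  · cases z <;> cases w <;> simp only [ld] at k ⊢ <;> (try split_ifs at k) <;> simp only [le] at k <;> aesop

def R {ι : Type} (g : X) (h : Y) (k : ℕ) (p : ι → X) (q : ι → Y) : Prop :=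
  ∀ i j, ∀ m : ℤ, |m| ≤ 2 ^ k → (p i = p j + m • g ↔ q i = q j + m • h)

lemma ext {ι : Type} [Fintype ι] [Fintype Y] {g : X} {h : Y} {k B : ℕ} {p : ι → X} {q : ι → Y}
    (r : R g h (k + 1) p q) (b : 2 ^ k ≤ B) (c1 : ∀ m : ℤ, |m| ≤ B → (m • g = 0 ↔ m • h = 0))
    (s : Fintype.card ι * (2 * B + 1) < Fintype.card Y) (x : X) :
    ∃ y, R g h k (Option.elim · x p) (Option.elim · y q) := by
  classical
  have b' : (2 : ℤ) ^ k ≤ B := by exact_mod_cast b
  have : (0 : ℤ) < 2 ^ k := by positivity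
  by_cases e : ∃ j, ∃ m : ℤ, |m| ≤ 2 ^ k ∧ x = p j + m • g
  · obtain ⟨j, m, u, rfl⟩ := e
    refine ⟨q j + m • h, ?_⟩
    rintro (_ | i) (_ | l) n w <;> simp only [Option.elim]
    · simpa using c1 n (w.trans b')
    · simpa [sub_smul, ← add_sub_assoc, eq_sub_iff_add_eq] using r j l (n - m) (by rw [abs_le] at *; omega)
    · simpa [add_smul, add_assoc] using r i j (m + n) (by rw [abs_le] at *; omega)
    · exact r i l n (by omega)
  · obtain ⟨y, -, hy⟩ := exists_mem_notMem_of_card_lt_card (s := (univ ×ˢ Icc (-B : ℤ) B).image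
      fun z : ι × ℤ => q z.1 + z.2 • h) (t := univ) (card_image_le.trans_lt (by
        simpa [show (B + 1 + B : ℤ).toNat = 2 * B + 1 by omega] using s))
    simp only [mem_image, mem_product, mem_univ, mem_Icc, ← abs_le, Prod.exists, true_and, not_exists,
      not_and] at e hy
    refine ⟨y, ?_⟩
    rintro (_ | i) (_ | l) n w <;> simp only [Option.elim]
    · simpa using c1 n (w.trans b')
    · exact iff_of_false (e l n w) fun z => hy l n (w.trans b') z.symm
    · exact iff_of_false (fun z => e i (-n) (by simpa) (by simp [z])) fun z =>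
        hy i (-n) (by simpa using w.trans b') (by simp [z])
    · exact r i l n (by omega)

def mv {g t : X} {h u : Y} : El g t → Y → El h u
  | o, _ => o | a, _ => a | c, _ => c | d, _ => d | v _, y => v y | e _, y => e y

def pos {g t : X} : El g t → X | v x | e x => x | _ => 0

instance (g t : X) : Language.order.Structure (El g t) := orderStructure _

def qd : ∀ {n}, Language.order.BoundedFormula Empty n → ℕ
  | _, .imp f g => max (qd f) (qd g)
  | _, .all f => qd f + 1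
  | _, _ => 0

lemma ef [Fintype X] [Fintype Y] {n} (φ : Language.order.BoundedFormula Empty n) : ∀ K ≥ qd φ, ∀ (B : ℕ)
    (g t : X) (h u : Y) (ι : Type) [Fintype ι] (p : ι → X) (q : ι → Y) (xs : Fin n → El g t)
    (ys : Fin n → El h u), R g h K p q → 2 ^ K ≤ B → (∀ m : ℤ, |m| ≤ B → (m • g = 0 ↔ m • h = 0)) →
    (Fintype.card ι + K) * (2 * B + 1) < min (Fintype.card X) (Fintype.card Y) →
    (∃ i, p i = 0 ∧ q i = 0) → (∃ i, p i = t ∧ q i = u) →
    (∀ j, ∃ i, xs j = mv (xs j) (p i) ∧ ys j = mv (xs j) (q i)) →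
    (φ.Realize default xs ↔ φ.Realize default ys) := by
  have A {n K} {g t : X} {h u : Y} {ι} {p : ι → X} {q : ι → Y} {xs : Fin n → El g t} {ys : Fin n → El h u}
      (r : R g h K p q) (z : ∃ i, p i = 0 ∧ q i = 0) (w : ∃ i, p i = t ∧ q i = u)
      (m : ∀ j, ∃ i, xs j = mv (xs j) (p i) ∧ ys j = mv (xs j) (q i)) (j l) : xs j ≤ xs l ↔ ys j ≤ ys l := by
    obtain ⟨i, a1, a2⟩ := m j
    obtain ⟨i', b1, b2⟩ := m l
    obtain ⟨z, z1, z2⟩ := z
    obtain ⟨w, rfl, rfl⟩ := w
    have r0 (i j) := r i j 0 (by simp)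
    have r1 := r i i' 1 (by simpa using one_le_pow₀ one_le_two)
    have r2 := r0 i z
    simp only [zero_smul, add_zero, one_smul, z1, z2] at r0 r1 r2
    rw [a1, a2, b1, b2]
    cases xs j <;> cases xs l <;> simp only [ld, le, mv, r1, r2, r0 i]
  induction φ with
  | falsum => intros; rfl
  | equal s s' =>
    intro K _ B g t h u ι _ p q xs ys r _ _ _ z w m
    rcases s with (⟨⟨⟩⟩ | j) | ⟨⟨⟩⟩
    rcases s' with (⟨⟨⟩⟩ | l) | ⟨⟨⟩⟩
    exact le_antisymm_iff.trans ((and_congr (A r z w m j l) (A r z w m l j)).trans le_antisymm_iff.symm)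
  | rel Q s =>
    intro K _ B g t h u ι _ p q xs ys r _ _ _ z w m
    cases Q
    show (s 0).realize _ ≤ (s 1).realize _ ↔ (s 0).realize _ ≤ (s 1).realize _
    rcases s 0 with (⟨⟨⟩⟩ | j) | ⟨⟨⟩⟩
    rcases s 1 with (⟨⟨⟩⟩ | l) | ⟨⟨⟩⟩
    exact A r z w m j l
  | imp _ _ i1 i2 =>
    exact fun K k B g t h u ι _ p q xs ys r b c s z w m =>
      imp_congr (i1 K (max_le_iff.1 k).1 B g t h u ι p q xs ys r b c s z w m)
        (i2 K (max_le_iff.1 k).2 B g t h u ι p q xs ys r b c s z w m)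
  | all _ ih =>
    intro K hk B g t h u ι _ p q xs ys r b c s ⟨z, hz⟩ ⟨w, hw⟩ m
    simp only [qd] at hk
    obtain ⟨K, rfl⟩ : ∃ k, K = k + 1 := ⟨K - 1, by omega⟩
    have b' : 2 ^ K ≤ B := by omega
    have s' := (Nat.mul_le_mul_right _ (Nat.le_add_right _ _)).trans_lt s
    have I (x y) (r : R g h K (Option.elim · x p) (Option.elim · y q)) (x' y') (e1 : x' = mv x' x)
        (e2 : y' = mv x' y) := ih K (by omega) B g t h u _ _ _ (Fin.snoc xs x') (Fin.snoc ys y') r b' c
      (by rwa [Fintype.card_option, add_assoc, add_comm 1]) ⟨some z, hz⟩ ⟨some w, hw⟩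
      (Fin.lastCases ⟨none, by simpa using ⟨e1, e2⟩⟩ fun j => (m j).elim fun i e => ⟨some i, by simpa using e⟩)
    simp only [BoundedFormula.realize_all]
    refine ⟨fun H y => ?_, fun H x => ?_⟩
    · obtain ⟨x, r⟩ := ext (fun i j m k => (r i j m k).symm) b' (fun m k => (c m k).symm)
        (s'.trans_le (min_le_left _ _)) (pos y)
      exact (I x _ (fun i j m k => (r i j m k).symm) (mv y x) y (by cases y <;> rfl) (by cases y <;> rfl)).1 (H _)
    · obtain ⟨y, r⟩ := ext r b' c (s'.trans_le (min_le_right _ _)) (pos x)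
      exact (I _ y r x _ (by cases x <;> rfl) rfl).2 (H _)

theorem result : ¬ ∃ φ : Language.order.Sentence, ∀ (P : Type) [Finite P] [PartialOrder P],
    (letI := orderStructure P; P ⊨ φ) ↔ IsDown P := by
  rintro ⟨φ, H⟩
  obtain ⟨n, hn⟩ : ∃ n, n = (2 + qd φ) * (2 * 2 ^ qd φ + 1) := ⟨_, rfl⟩
  have b : (2 : ℤ) ^ qd φ < n := by
    have : (0 : ℤ) < 2 ^ qd φ := by positivity
    rw [hn]; push_cast; nlinarith
  have Z (m : ℤ) (a : |m| < 2 * (n + 1)) (z : (m : ZMod (2 * (n + 1))) = 0) : m = 0 :=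
    Int.eq_zero_of_abs_lt_dvd ((ZMod.intCast_zmod_eq_zero_iff_dvd _ _).1 z) a
  have W (m : ℤ) (a : |m| ≤ 2 ^ qd φ) : (m : ZMod (2 * (n + 1))) ≠ n ∧ (m : ZMod (2 * (n + 1))) ≠ -n := by
    rw [abs_le] at a
    refine ⟨fun e => ?_, fun e => ?_⟩
    · have := Z (m - n) (by rw [abs_lt]; omega) (by simp [e]); omega
    · have := Z (m + n) (by rw [abs_lt]; omega) (by simp [e]); omega
  refine bad (1 : ZMod (2 * (n + 1))) n (by simpa [eq_comm] using (W 0 (by simp)).1) ((H _).1
    ((ef (n := 0) φ _ le_rfl (2 ^ qd φ) _ _ _ _ Bool (cond · (n • 1) 0) (cond · (0, 1) 0) default default ?_ le_rfl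
      (fun m _ => by simp) (by simp [← hn]; omega) ⟨false, rfl, rfl⟩ ⟨true, rfl, rfl⟩ (·.elim0)).2
      ((H _).2 (good (1 : ZMod (2 * (n + 1)))))))
  rintro (_ | _) (_ | _) m a <;> simp [Prod.ext_iff]
  · exact fun e => (W m a).2 (eq_neg_of_add_eq_zero_right e.symm)
  · exact (W m a).1.symm
  · exact eq_comm

end Pool.Agent.Results.MP_bbe6b0_lc.Q1
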